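import Pool.Agent.Q215.SD.Stm

set_option autoImplicit false

/-!
# Project SD of helper215, job COUNT (helper150): the number of bad components which a flip destroys
-/

namespace Pool.Agent.Q150.SD

open Finset Classical
open Pool.Agent.TH87.RVE (comps comp mem_comp mem_comps comp_self comp_sub comp_eq comp_of_mem
  comps_sub comps_nonempty comp_mem_comps comp_closed rch_mono rch_closed comp_closed_eq
  comps_comp comps_eq_union comps_erase comps_map comp_map rch RR rch_symm rch_trans)
open Pool.Agent.Q215.SD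

variable {V : Type} [Fintype V]

/-- joined vertices have the same component -/
theorem comp_eq_of_adj (K : SimpleGraph V) (W : Finset V) {x y : V} (hx : x ∈ W) (hy : y ∈ W) (h : K.Adj x y) :
    comp K W x = comp K W y :=
  (comp_eq K W x y ((mem_comp K W x y).2 ⟨hy, Relation.ReflTransGen.single ⟨hx, hy, h⟩⟩)).symm

theorem count_zero (R : ℕ) (U : Finset V) (K K' : SimpleGraph V)
    (hfl : IsFlip R U K K') (h1 : ∀ C ∈ comps K U, ¬ C.card ≤ 1) (h2 : ∀ C ∈ comps K' U, C.card ≤ 1) :
    (comps K U).card ≤ R * R := by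
  obtain ⟨f, M, hM, hf⟩ := hfl
  have hK' : ∀ x ∈ U, ∀ y ∈ U, ¬ K'.Adj x y := by
    intro x hx y hy hxy
    have h3 := h2 _ (comp_mem_comps K' U x hx)
    rw [card_le_one] at h3
    have h4 : y ∈ comp K' U x := (mem_comp K' U x y).2 ⟨hy, Relation.ReflTransGen.single ⟨hx, hy, hxy⟩⟩
    exact hxy.ne (h3 x (comp_self K' U x hx) y h4)
  have hKM : ∀ x ∈ U, ∀ y ∈ U, x ≠ y → (K.Adj x y ↔ M (f x) (f y)) := by
    intro x hx y hy hxy
    have h3 := hf x hx y hy hxy
    have h4 := hK' x hx y hy
    by_contra h5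
    exact h4 (h3.2 h5)
  have hedge : ∀ C : {C // C ∈ comps K U}, ∃ e : V × V, e.1 ∈ C.1 ∧ e.2 ∈ C.1 ∧ K.Adj e.1 e.2 := by
    rintro ⟨C, hC⟩
    have h3 := h1 C hC
    rw [not_le, one_lt_card] at h3
    obtain ⟨x, hx, z, hz, hxz⟩ := h3
    have h4 := comp_of_mem K U C hC x hx
    rw [← h4, mem_comp] at hz
    rcases Relation.ReflTransGen.cases_head hz.2 with h5 | ⟨y, hy, -⟩
    · exact absurd h5 hxz
    · exact ⟨(x, y), hx, comp_closed K U C hC x y hx hy.2.1 hy.2.2, hy.2.2⟩
  choose ed hed1 hed2 hed3 using hedge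
  have hinj : Function.Injective fun C : {C // C ∈ comps K U} => (f (ed C).1, f (ed C).2) := by
    intro C C' h
    simp only [Prod.mk.injEq] at h
    have hxU := comps_sub K U C.1 C.2 (hed1 C)
    have hyU := comps_sub K U C.1 C.2 (hed2 C)
    have hyU' := comps_sub K U C'.1 C'.2 (hed2 C')
    have h3 := (hKM _ hxU _ hyU (hed3 C).ne).1 (hed3 C)
    rw [h.2] at h3
    by_cases hxy : (ed C).1 = (ed C').2
    · refine Subtype.ext (comps_disj K U C.1 C'.1 C.2 C'.2 _ (hed1 C) ?_)
      rw [hxy]
      exact hed2 C'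
    · have h4 := (hKM _ hxU _ hyU' hxy).2 h3
      have h5 := comp_closed K U C.1 C.2 _ _ (hed1 C) hyU' h4
      exact Subtype.ext (comps_disj K U C.1 C'.1 C.2 C'.2 _ h5 (hed2 C'))
  have h3 := Fintype.card_le_of_injective _ hinj
  rw [Fintype.card_coe] at h3
  simpa using h3

theorem count_succ (hloc : S_local) (r : ℕ) (hr : 1 ≤ r) (e : ℕ)
    (ih : ∀ (R : ℕ) (U : Finset V) (K K' : SimpleGraph V),
      IsFlip R U K K' → (∀ C ∈ comps K U, ¬ FD r e K C) → (∀ C ∈ comps K' U, FD r e K' C) →
      (comps K U).card ≤ gg r e R) (R : ℕ) (U : Finset V) (K K' : SimpleGraph V)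
    (hfl : IsFlip R U K K') (h1 : ∀ C ∈ comps K U, ¬ FD r (e + 1) K C)
    (h2 : ∀ C ∈ comps K' U, FD r (e + 1) K' C) : (comps K U).card ≤ gg r (e + 1) R := by
  obtain ⟨f, M, hM, hf⟩ := id hfl
  have hmain : ∀ Q : Finset (Fin R), ((comps K U).filter (fun C => C.image f = Q)).card ≤
      gg r e (R * ((R + 1) * r)) + 2 := by
    intro Q
    set J := (comps K U).filter (fun C => C.image f = Q) with hJ
    by_contra hcon
    push Not at hcon
    have hJ3 : 3 ≤ J.card := by omega
    have hJsub : J ⊆ comps K U := filter_subset _ _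
    have hJQ : ∀ C ∈ J, C.image f = Q := fun C hC => (mem_filter.1 hC).2
    set W := J.biUnion id with hW
    have hcW : comps K W = J := comps_biUnion K U J hJsub
    have hWU : W ⊆ U := by
      intro x hx
      rw [hW, mem_biUnion] at hx
      obtain ⟨C, hC, hx⟩ := hx
      exact comps_sub K U C (hJsub hC) hx
    have hfQ : ∀ x ∈ W, f x ∈ Q := by
      intro x hx
      rw [hW, mem_biUnion] at hx
      obtain ⟨C, hC, hx⟩ := hx
      rw [← hJQ C hC]
      exact mem_image_of_mem f hx
    have hFDW : ∀ D ∈ comps K' W, FD r (e + 1) K' D := by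
      intro D hD
      obtain ⟨D', hD', hsub⟩ := comps_mono_sub K' hWU D hD
      exact FD_mono r (e + 1) K' D' D hsub (h2 D' hD')
    -- active vertices
    let act : V → Prop := fun x => ∃ q' ∈ Q, M (f x) q'
    have hinact : ∀ x ∈ W, ¬ act x → ∀ y ∈ W, (K'.Adj x y ↔ K.Adj x y) := by
      intro x hx hax y hy
      by_cases hxy : x = y
      · rw [hxy]
        simp
      rw [hf x (hWU hx) y (hWU hy) hxy]
      have h3 : ¬ M (f x) (f y) := fun h => hax ⟨f y, hfQ y hy, h⟩
      tauto
    have ha : ∀ C ∈ J, ∃ x ∈ C, act x := by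
      intro C hC
      by_contra hno
      push Not at hno
      have hCW : C ⊆ W := fun x hx => mem_biUnion.2 ⟨C, hC, hx⟩
      have hag : ∀ x ∈ C, ∀ y ∈ C, (K'.Adj x y ↔ K.Adj x y) := fun x hx y hy =>
        hinact x (hCW hx) (hno x hx) y (hCW hy)
      have h3 : C ∈ comps K' C := by
        rw [comps_congr' K' K C hag, comps_comp K U C (hJsub hC)]
        exact mem_singleton_self C
      obtain ⟨D, hD, hCD⟩ := comps_mono_sub K' (comps_sub K U C (hJsub hC)) C h3
      exact h1 C (hJsub hC) (FD_congr r (e + 1) K' K C hag (FD_mono r (e + 1) K' D C hCD (h2 D hD)))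
    have hb : ∀ x ∈ W, ∃ a ∈ comp K' W x, act a := by
      intro x hx
      obtain ⟨C, hC, hxC⟩ := mem_biUnion.1 hx
      obtain ⟨a, haC, haa⟩ := ha C hC
      have haW : a ∈ W := mem_biUnion.2 ⟨C, hC, haC⟩
      have h3 : rch K W a x := by
        have h4 : comp K W a = C := comp_of_mem K W C (by rw [hcW]; exact hC) a haC
        have h5 : x ∈ comp K W a := by rw [h4]; exact hxC
        exact ((mem_comp K W a x).1 h5).2
      let S : Finset V := W.filter (fun y => ∃ b ∈ comp K' W y, act b)
      have hS : ∀ s ∈ S, ∀ t ∈ W, K.Adj s t → t ∈ S := by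
        intro s hs t ht hst
        obtain ⟨hsW, b, hb, hbb⟩ := mem_filter.1 hs
        refine mem_filter.2 ⟨ht, ?_⟩
        by_cases hat : act t
        · exact ⟨t, comp_self K' W t ht, hat⟩
        · have h4 := (hinact t ht hat s hsW).2 hst.symm
          refine ⟨b, ?_, hbb⟩
          rw [comp_eq_of_adj K' W ht hsW h4]
          exact hb
      have haS : a ∈ S := mem_filter.2 ⟨haW, a, comp_self K' W a haW, haa⟩
      exact (mem_filter.1 (rch_closed K W S hS haS h3).1).2
    have hc : ∀ x ∈ W, ∀ x' ∈ W, act x → f x = f x' → comp K' W x = comp K' W x' := by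
      intro x hx x' hx' hax hff
      obtain ⟨q', hq', hM'⟩ := hax
      obtain ⟨C, hC, hxC⟩ := mem_biUnion.1 hx
      obtain ⟨C', hC', hxC'⟩ := mem_biUnion.1 hx'
      have h3 : ∃ C'' ∈ J, C'' ≠ C ∧ C'' ≠ C' := by
        by_contra hno
        push Not at hno
        have h4 : J ⊆ {C, C'} := by
          intro D hD
          rw [mem_insert, mem_singleton]
          by_cases hDC : D = C
          · exact Or.inl hDC
          · exact Or.inr (hno D hD hDC)
        have h5 := (card_le_card h4).trans card_le_two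
        omega
      obtain ⟨C'', hC'', hne, hne'⟩ := h3
      have h4 : q' ∈ C''.image f := by rw [hJQ C'' hC'']; exact hq'
      obtain ⟨y, hy, hyq⟩ := mem_image.1 h4
      have hyW : y ∈ W := mem_biUnion.2 ⟨C'', hC'', hy⟩
      have h5 : K'.Adj x y := by
        have hxy : x ≠ y := by
          rintro rfl
          exact hne (comps_disj K U _ _ (hJsub hC'') (hJsub hC) x hy hxC)
        rw [hf x (hWU hx) y (hWU hyW) hxy, hyq]
        intro h6
        have h7 := h6.2 hM'
        have h8 := comp_closed K U C (hJsub hC) x y hxC (hWU hyW) h7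
        exact hne (comps_disj K U _ _ (hJsub hC'') (hJsub hC) y hy h8)
      have h5' : K'.Adj x' y := by
        have hxy : x' ≠ y := by
          rintro rfl
          exact hne' (comps_disj K U _ _ (hJsub hC'') (hJsub hC') x' hy hxC')
        rw [hf x' (hWU hx') y (hWU hyW) hxy, hyq, ← hff]
        intro h6
        have h7 := h6.2 hM'
        have h8 := comp_closed K U C' (hJsub hC') x' y hxC' (hWU hyW) h7
        exact hne' (comps_disj K U _ _ (hJsub hC'') (hJsub hC') y hy h8)
      rw [comp_eq_of_adj K' W hx hyW h5, comp_eq_of_adj K' W hx' hyW h5']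
    have hd : (comps K' W).card ≤ R := by
      have h3 : ∀ D : {D // D ∈ comps K' W}, ∃ a ∈ D.1, act a := by
        rintro ⟨D, hD⟩
        obtain ⟨x, hx⟩ := comps_nonempty K' W D hD
        have h4 := hb x (comps_sub K' W D hD hx)
        rw [comp_of_mem K' W D hD x hx] at h4
        exact h4
      choose a ha1 ha2 using h3
      have hinj : Function.Injective fun D : {D // D ∈ comps K' W} => f (a D) := by
        intro D D' h
        have hW1 := comps_sub K' W D.1 D.2 (ha1 D)
        have hW2 := comps_sub K' W D'.1 D'.2 (ha1 D')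
        have h4 := hc _ hW1 _ hW2 (ha2 D) h
        rw [comp_of_mem K' W D.1 D.2 _ (ha1 D), comp_of_mem K' W D'.1 D'.2 _ (ha1 D')] at h4
        exact Subtype.ext h4
      have h4 := Fintype.card_le_of_injective _ hinj
      rw [Fintype.card_coe] at h4
      simpa using h4
    have hbad : (Bad r e K' W).card ≤ R := (card_le_card (filter_subset _ _)).trans hd
    obtain ⟨K'', hfl2, hFD2⟩ := hloc V r hr e R K' W hFDW hbad
    have h3 := ih (R * ((R + 1) * r)) W K K'' (isFlip_trans (isFlip_mono hfl hWU) hfl2) (by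
      intro C hC hFD
      rw [hcW] at hC
      exact h1 C (hJsub hC) (FD_succ r hr e K C hFD)) hFD2
    rw [hcW] at h3
    omega
  have h3 := card_le_mul_card_image (f := fun C : Finset V => C.image f) (comps K U)
    (gg r e (R * ((R + 1) * r)) + 2) (fun Q _ => hmain Q)
  have h4 : ((comps K U).image fun C => C.image f).card ≤ 2 ^ R := by
    refine (card_le_univ _).trans ?_
    simp
  calc (comps K U).card ≤ (gg r e (R * ((R + 1) * r)) + 2) * ((comps K U).image fun C => C.image f).card := h3
    _ ≤ (gg r e (R * ((R + 1) * r)) + 2) * 2 ^ R := Nat.mul_le_mul_left _ h4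
    _ = gg r (e + 1) R := by rw [gg, mul_comm]

theorem s_count (h : S_local) : S_count := by
  intro V _ r hr e
  induction e with
  | zero =>
    intro R U K K' hfl h1 h2
    exact count_zero R U K K' hfl h1 h2
  | succ e ih =>
    intro R U K K' hfl h1 h2
    exact count_succ h r hr e ih R U K K' hfl h1 h2

end Pool.Agent.Q150.SD
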