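import Pool.Agent.Q215.SD.Stm

set_option autoImplicit false

/-!
# Project SD of helper215, job NICE (helper150): unions of nice components correspond
-/

namespace Pool.Agent.Q150.SD

open Finset Classical
open Pool.Agent.TH87.RVE (comps comp mem_comp mem_comps comp_self comp_sub comp_eq comp_of_mem
  comps_sub comps_nonempty comp_mem_comps comp_closed rch_mono rch_closed comp_closed_eq
  comps_comp comps_eq_union comps_erase comps_map comp_map rch RR rch_symm rch_trans)
open Pool.Agent.Q215.SD

variable {V : Type} [Fintype V]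

/-- the union of the components all of whose vertices satisfy `p` -/
noncomputable def gU (K : SimpleGraph V) (p : V → Prop) (U : Finset V) : Finset V :=
  ((comps K U).filter (fun D => ∀ y ∈ D, p y)).biUnion id

theorem mem_gU (K : SimpleGraph V) (p : V → Prop) (U : Finset V) (y : V) :
    y ∈ gU K p U ↔ y ∈ U ∧ ∀ z ∈ comp K U y, p z := by
  unfold gU
  rw [mem_biUnion]
  constructor
  · rintro ⟨D, hD, hy⟩
    rw [mem_filter] at hD
    refine ⟨comps_sub K U D hD.1 hy, ?_⟩
    rw [comp_of_mem K U D hD.1 y hy]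
    exact hD.2
  · rintro ⟨hy, h⟩
    exact ⟨comp K U y, mem_filter.2 ⟨comp_mem_comps K U y hy, h⟩, comp_self K U y hy⟩

theorem comp_erase_sub (K : SimpleGraph V) (L : Finset V) (v y : V) :
    comp K (L.erase v) y ⊆ comp K L y := by
  intro z hz
  rw [mem_comp] at hz ⊢
  exact ⟨mem_of_mem_erase hz.1, rch_mono K _ _ (erase_subset v L) hz.2⟩

theorem gU_sub (K : SimpleGraph V) (p : V → Prop) (U : Finset V) : gU K p U ⊆ U := fun y hy =>
  ((mem_gU K p U y).1 hy).1

theorem gU_erase (K : SimpleGraph V) (p : V → Prop) (L : Finset V) (v : V) (hv : v ∈ gU K p L) :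
    gU K p (L.erase v) = (gU K p L).erase v := by
  obtain ⟨hvL, hvp⟩ := (mem_gU K p L v).1 hv
  ext y
  rw [mem_erase, mem_gU, mem_gU, mem_erase]
  constructor
  · rintro ⟨⟨hyv, hyL⟩, h⟩
    refine ⟨hyv, hyL, ?_⟩
    by_cases hyD : y ∈ comp K L v
    · rw [comp_eq K L v y hyD]
      exact hvp
    · -- the component of `y` does not contain `v`
      have hm := comp_mem_comps K L y hyL
      have hvn : v ∉ comp K L y := by
        intro h2
        apply hyD
        rw [comp_eq K L y v h2]
        exact comp_self K L y hyL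
      have hsub : comp K L y ⊆ L.erase v := fun z hz =>
        mem_erase.2 ⟨fun h2 => hvn (h2 ▸ hz), comp_sub K L y hz⟩
      have h1 : comp K L y = comp K (comp K L y) y := comp_closed_eq K L _ (comp_sub K L y)
        (fun a ha b hb hab => comp_closed K L _ hm a b ha hb hab) y (comp_self K L y hyL)
      have h2 : comp K (L.erase v) y = comp K (comp K L y) y := comp_closed_eq K _ _ hsub
        (fun a ha b hb hab => comp_closed K L _ hm a b ha (mem_of_mem_erase hb) hab) y (comp_self K L y hyL)
      rw [h1, ← h2]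
      exact h
  · rintro ⟨hyv, hyL, h⟩
    exact ⟨⟨hyv, hyL⟩, fun z hz => h z (comp_erase_sub K L v y hz)⟩

theorem gU_sub_erase (K : SimpleGraph V) (p : V → Prop) (L : Finset V) (v : V) (hv : v ∉ gU K p L) :
    gU K p L ⊆ gU K p (L.erase v) := by
  intro y hy
  have hyv : y ≠ v := fun h => hv (h ▸ hy)
  rw [mem_gU] at hy ⊢
  exact ⟨mem_erase.2 ⟨hyv, hy.1⟩, fun z hz => hy.2 z (comp_erase_sub K L v y hz)⟩

theorem s_nice : S_nice := by
  intro V _ G' H' L p q π hπ hL hA hpq hG hH
  have hπ' : ∀ v u, π v u = v ↔ u = v := by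
    intro v u
    constructor
    · intro h
      exact (π v).injective (h.trans (hπ v).symm)
    · rintro rfl
      exact hπ u
  have hmemE : ∀ v ∈ L, ∀ x, π v x ∈ L.erase v ↔ x ∈ L.erase v := by
    intro v hv x
    rw [mem_erase, mem_erase, hL v hv, ne_eq, ne_eq, hπ']
  -- the sets correspond after the deletion of a vertex
  have hcor : ∀ v ∈ L, ∀ y, π v y ∈ gU H' q (L.erase v) ↔ y ∈ gU G' p (L.erase v) := by
    intro v hv y
    rw [mem_gU, mem_gU, hmemE v hv]
    refine and_congr_right fun hy => ?_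
    rw [comp_map G' H' (L.erase v) (L.erase v) (π v) (hmemE v hv) (fun x y hx hy =>
      hA v hv x (mem_of_mem_erase hx) y (mem_of_mem_erase hy) (ne_of_mem_erase hx) (ne_of_mem_erase hy)) y]
    constructor
    · intro h z hz
      have h1 := h (π v z) (mem_map_of_mem _ hz)
      have h2 := comp_sub G' _ y hz
      rwa [hpq v hv z (mem_of_mem_erase h2) (ne_of_mem_erase h2)] at h1
    · intro h z hz
      rw [mem_map] at hz
      obtain ⟨x, hx, rfl⟩ := hz
      have h2 := comp_sub G' _ y hx
      have h3 := h x hx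
      rw [← hpq v hv x (mem_of_mem_erase h2) (ne_of_mem_erase h2)] at h3
      exact h3
  have hcard : ∀ v ∈ L, (gU H' q (L.erase v)).card = (gU G' p (L.erase v)).card := by
    intro v hv
    have h1 : gU H' q (L.erase v) = (gU G' p (L.erase v)).map (π v).toEmbedding := by
      ext y
      obtain ⟨x, rfl⟩ := (π v).surjective y
      rw [hcor v hv, mem_map_equiv, Equiv.symm_apply_apply]
    rw [h1, card_map]
  have hGn : (gU G' p L).Nonempty := by
    obtain ⟨D, hD, hp⟩ := hG
    obtain ⟨x, hx⟩ := comps_nonempty G' L D hD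
    refine ⟨x, (mem_gU _ _ _ _).2 ⟨comps_sub G' L D hD hx, ?_⟩⟩
    rw [comp_of_mem G' L D hD x hx]
    exact hp
  have hHn : (gU H' q L).Nonempty := by
    obtain ⟨D, hD, hp⟩ := hH
    obtain ⟨x, hx⟩ := comps_nonempty H' L D hD
    refine ⟨x, (mem_gU _ _ _ _).2 ⟨comps_sub H' L D hD hx, ?_⟩⟩
    rw [comp_of_mem H' L D hD x hx]
    exact hp
  have ha1 : ∀ (K : SimpleGraph V) (s : V → Prop) (v : V), v ∈ gU K s L →
      (gU K s (L.erase v)).card + 1 = (gU K s L).card := by
    intro K s v hv
    rw [gU_erase K s L v hv, card_erase_add_one hv]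
  have ha2 : ∀ (K : SimpleGraph V) (s : V → Prop) (v : V), v ∉ gU K s L →
      (gU K s L).card ≤ (gU K s (L.erase v)).card := fun K s v hv => card_le_card (gU_sub_erase K s L v hv)
  have heq : gU G' p L = gU H' q L := by
    obtain ⟨v1, hv1⟩ := hGn
    obtain ⟨v2, hv2⟩ := hHn
    have hv1L := gU_sub _ _ _ hv1
    have hv2L := gU_sub _ _ _ hv2
    have c1 := hcard v1 hv1L
    have c2 := hcard v2 hv2L
    have e1 := ha1 G' p v1 hv1
    have e2 := ha1 H' q v2 hv2
    have hc : (gU G' p L).card = (gU H' q L).card := by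
      by_cases h1 : v1 ∈ gU H' q L
      · have := ha1 H' q v1 h1
        omega
      · have h3 := ha2 H' q v1 h1
        by_cases h2 : v2 ∈ gU G' p L
        · have := ha1 G' p v2 h2
          omega
        · have h4 := ha2 G' p v2 h2
          omega
    ext v
    constructor
    · intro hv
      by_contra h
      have h1 := ha1 G' p v hv
      have h2 := ha2 H' q v h
      have h3 := hcard v (gU_sub _ _ _ hv)
      omega
    · intro hv
      by_contra h
      have h1 := ha1 H' q v hv
      have h2 := ha2 G' p v h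
      have h3 := hcard v (gU_sub _ _ _ hv)
      omega
  refine ⟨heq, ?_⟩
  change ∀ v ∈ gU G' p L, ∀ u : V, π v u ∈ gU G' p L ↔ u ∈ gU G' p L
  intro v hv u
  have hvL := gU_sub _ _ _ hv
  by_cases huv : u = v
  · rw [huv, hπ]
  have h1 := hcor v hvL u
  rw [gU_erase G' p L v hv, gU_erase H' q L v (heq ▸ hv), mem_erase, mem_erase, ne_eq, ne_eq, hπ', ← heq] at h1
  constructor
  · intro h
    exact (h1.1 ⟨huv, h⟩).2
  · intro h
    exact (h1.2 ⟨huv, h⟩).2

end Pool.Agent.Q150.SD
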